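import Mathlib

/-!
# Quantum cohomology, blow-ups and exceptional collections: definitions
-/

universe u

namespace Pool.Agent.Q200.DB

/-- The smooth projective (connected) complex varieties, up to isomorphism, with some geometric notions
and with the types of the local factors of their big quantum cohomology. -/
structure QHData where
  /-- the smooth projective complex varieties, up to isomorphism -/
  Var : Type u
  /-- the dimension -/
  dim : Var → ℕ
  /-- the projective space of dimension `n` -/
  P : ℕ → Var
  /-- `X × Y` -/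
  prod : Var → Var → Var
  /-- `X` and `Y` are birational -/
  Bir : Var → Var → Prop
  /-- `Blow Z X Y r`: `Y` is the blow-up of `X` along the smooth connected subvariety `Z` of
  codimension `r ≥ 2` -/
  Blow : Var → Var → Var → ℕ → Prop
  /-- `X` is a Fano variety -/
  Fano : Var → Prop
  /-- the canonical divisor is nef -/
  NefK : Var → Prop
  /-- the Betti numbers -/
  betti : Var → ℕ → ℕ
  /-- the sum of the odd Betti numbers -/
  odd : Var → ℕ
  /-- the geometric genus `h^{2,0}` of a surface -/
  pg : Var → ℕ
  /-- The big quantum cohomology (coefficients extended to an algebraic closure of the field of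
  fractions of the even formal parameters, including the Novikov variables) is a finite-dimensional
  supercommutative algebra. It is the product of local superalgebras; `types X` is the multiset of
  their superdimensions `(a, b)`. -/
  types : Var → Multiset (ℕ × ℕ)
  /-- the derived category has a full exceptional collection (of length `dim H(X)`) -/
  FEC : Var → Prop

namespace QHData

variable (T : QHData.{u})

/-- The big quantum cohomology is semisimple: all local factors are fields. -/
def Semisimple (X : T.Var) : Prop := ∀ x ∈ T.types X, x = (1, 0)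

/-- `X` is birational to a projective space. -/
def Rational (X : T.Var) : Prop := T.Bir X (T.P (T.dim X))

/-- The variety `X'` is a blow-up of `X`, or conversely. -/
def Step (X X' : T.Var) : Prop := ∃ Z r, T.Blow Z X X' r ∨ T.Blow Z X' X r

/-- `X` is obtained from `Y` by a finite sequence of blow-ups along smooth subvarieties. -/
def Above (Y X : T.Var) : Prop :=
  Relation.ReflTransGen (fun A B => ∃ Z r, T.Blow Z A B r) Y X

/-- Known facts.
* `weak`: weak factorization (Abramovich, Karu, Matsuki, Włodarczyk).
* `blow`: Iritani's theorem: the quantum cohomology of the blow-up `X'` of `X` along `Z` decomposes,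
  at the generic point, into those of `X` and of `r - 1` copies of `Z`.
* `times`: the same for projective bundles, here `X × P^1` (Iritani, Koto).
* `proj`, `point`, `curve`: the quantum cohomology of a projective space is semisimple; that of a curve
  of genus `g ≥ 1` is its usual cohomology, a local superalgebra of superdimension `(2, 2 g)`.
* `surface`: the classification of Enriques. `nef`: for a surface with nef canonical divisor there are
  no quantum corrections (negative virtual dimension), so that the quantum cohomology is local, of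
  superdimension `(2 + b_2, 2 b_1)`, and `b_2 ≥ 1`.
* `odd_eq`: the quantum cohomology has the superdimension of the cohomology; `b1_bir`, `pg_bir`,
  `b1_times`, `b1_curve`, `b1_le`: Betti numbers.
* `fec_odd`, `fec_forms`: a variety with a full exceptional collection has no odd cohomology and
  `h^{p,q} = 0` for `p ≠ q`. `fec_proj`, `fec_blow`: Beilinson, Orlov.
* `fano3`: a Fano threefold without odd cohomology is rational and has a full exceptional collection
  (Iskovskikh, Mori, Mukai; Ciolli).
* `fano4`: a Fano fourfold with `b_2 > 12` is the product of two del Pezzo surfaces (Casagrande).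
* `prod_ss`, `prod_fec`, `fec_surface`: products; rational surfaces (Orlov). -/
structure Facts : Prop where
  bir_symm : ∀ {X Y : T.Var}, T.Bir X Y → T.Bir Y X
  bir_trans : ∀ {X Y Z : T.Var}, T.Bir X Y → T.Bir Y Z → T.Bir X Z
  bir_dim : ∀ {X Y : T.Var}, T.Bir X Y → T.dim X = T.dim Y
  weak : ∀ {X Y : T.Var}, T.Bir X Y → Relation.ReflTransGen T.Step X Y
  blow_dim : ∀ {Z X X' : T.Var} {r : ℕ}, T.Blow Z X X' r →
    2 ≤ r ∧ T.dim Z + r = T.dim X ∧ T.dim X' = T.dim X ∧ T.Bir X' X
  blow : ∀ {Z X X' : T.Var} {r : ℕ}, T.Blow Z X X' r →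
    T.types X' = T.types X + (r - 1) • T.types Z
  dim_times : ∀ X : T.Var, T.dim (T.prod X (T.P 1)) = T.dim X + 1
  times : ∀ X : T.Var, T.types (T.prod X (T.P 1)) = 2 • T.types X
  dim_proj : ∀ n, T.dim (T.P n) = n
  proj : ∀ n, T.Semisimple (T.P n)
  point : ∀ X : T.Var, T.dim X = 0 → T.types X = {(1, 0)}
  curve : ∀ X : T.Var, T.dim X = 1 →
    T.types X = {(1, 0), (1, 0)} ∨ ∃ g, 1 ≤ g ∧ T.types X = {(2, 2 * g)}
  surface : ∀ S : T.Var, T.dim S = 2 → T.Rational S ∨
    (∃ C, T.dim C = 1 ∧ T.odd C ≠ 0 ∧ T.Bir S (T.prod C (T.P 1))) ∨ ∃ S₀, T.Bir S S₀ ∧ T.NefK S₀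
  nef : ∀ S : T.Var, T.dim S = 2 → T.NefK S → 1 ≤ T.betti S 2 ∧
    T.types S = {(2 + T.betti S 2, 2 * T.betti S 1)}
  odd_eq : ∀ X : T.Var, T.odd X = ((T.types X).map Prod.snd).sum
  b1_bir : ∀ {X Y : T.Var}, T.Bir X Y → T.betti X 1 = T.betti Y 1
  b1_times : ∀ X : T.Var, T.betti (T.prod X (T.P 1)) 1 = T.betti X 1
  b1_curve : ∀ C : T.Var, T.dim C = 1 → T.betti C 1 = T.odd C
  b1_le : ∀ X : T.Var, T.betti X 1 ≤ T.odd X
  fec_odd : ∀ X : T.Var, T.FEC X → T.odd X = 0
  fec_forms : ∀ X S : T.Var, T.FEC X → T.Bir X (T.prod S (T.P 1)) → T.dim S = 2 → T.pg S = 0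
  fec_point : ∀ X : T.Var, T.dim X = 0 → T.FEC X
  fec_curve : ∀ X : T.Var, T.dim X = 1 → T.odd X = 0 → T.FEC X
  fec_surface : ∀ S : T.Var, T.dim S = 2 → T.Rational S → T.FEC S
  fec_blow : ∀ {Z X X' : T.Var} {r : ℕ}, T.Blow Z X X' r → T.FEC X → T.FEC Z → T.FEC X'
  fano3 : ∀ X : T.Var, T.Fano X → T.dim X = 3 → T.odd X = 0 → T.Rational X ∧ T.FEC X
  fano4 : ∀ X : T.Var, T.Fano X → T.dim X = 4 → 12 < T.betti X 2 → ∃ S S' : T.Var,
    X = T.prod S S' ∧ T.dim S = 2 ∧ T.dim S' = 2 ∧ T.Rational S ∧ T.Rational S'
  prod_ss : ∀ X Y : T.Var, T.Semisimple X → T.Semisimple Y → T.Semisimple (T.prod X Y)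
  prod_fec : ∀ X Y : T.Var, T.FEC X → T.FEC Y → T.FEC (T.prod X Y)

end QHData

end Pool.Agent.Q200.DB
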