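import Pool.Agent.Q200.DB.Defs

/-!
# Quantum cohomology, blow-ups and exceptional collections: proofs
-/

universe u

namespace Pool.Agent.Q200.DB

namespace QHData

variable {T : QHData.{u}}

lemma count_step (hT : T.Facts) {A B : T.Var} (h : T.Step A B) {x : ℕ × ℕ}
    (hx : ∀ Z, T.dim Z + 2 ≤ T.dim A → x ∉ T.types Z) :
    T.dim B = T.dim A ∧ (T.types B).count x = (T.types A).count x := by
  obtain ⟨Z, r, h | h⟩ := h
  · obtain ⟨h1, h2, h3, -⟩ := hT.blow_dim h
    refine ⟨h3, ?_⟩
    rw [hT.blow h, Multiset.count_add, Multiset.count_nsmul,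
      Multiset.count_eq_zero_of_notMem (hx Z (by omega)), mul_zero, add_zero]
  · obtain ⟨h1, h2, h3, -⟩ := hT.blow_dim h
    refine ⟨h3.symm, ?_⟩
    rw [hT.blow h, Multiset.count_add, Multiset.count_nsmul,
      Multiset.count_eq_zero_of_notMem (hx Z (by omega)), mul_zero, add_zero]

/-- Birational varieties of dimension `n` have the same local factors except for types which occur
in dimension at most `n - 2`. -/
theorem count_bir (hT : T.Facts) {X Y : T.Var} (h : T.Bir X Y) {x : ℕ × ℕ}
    (hx : ∀ Z, T.dim Z + 2 ≤ T.dim X → x ∉ T.types Z) :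
    (T.types Y).count x = (T.types X).count x := by
  have key : ∀ Y, Relation.ReflTransGen T.Step X Y →
      T.dim Y = T.dim X ∧ (T.types Y).count x = (T.types X).count x := by
    intro Y hY
    induction hY with
    | refl => exact ⟨rfl, rfl⟩
    | tail _ hs ih =>
      obtain ⟨a, b⟩ := count_step hT hs (fun Z hZ => hx Z (by rw [← ih.1]; exact hZ))
      exact ⟨a.trans ih.1, b.trans ih.2⟩
  exact (key Y (hT.weak h)).2

/-- the types of points and curves -/
def Small (x : ℕ × ℕ) : Prop := x = (1, 0) ∨ ∃ g, 1 ≤ g ∧ x = (2, 2 * g)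

lemma small_of_dim (hT : T.Facts) {Z : T.Var} (h : T.dim Z ≤ 1) {x : ℕ × ℕ}
    (hx : x ∈ T.types Z) : Small x := by
  rcases Nat.le_one_iff_eq_zero_or_eq_one.1 h with h | h
  · rw [hT.point Z h, Multiset.mem_singleton] at hx
    exact Or.inl hx
  · rcases hT.curve Z h with h' | ⟨g, hg, h'⟩
    · rw [h'] at hx
      simp only [Multiset.insert_eq_cons, Multiset.mem_cons, Multiset.mem_singleton, or_self] at hx
      exact Or.inl hx
    · rw [h', Multiset.mem_singleton] at hx
      exact Or.inr ⟨g, hg, hx⟩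

/-- threefolds: the law -/
theorem count_three (hT : T.Facts) {X Y : T.Var} (h : T.Bir X Y) (hX : T.dim X = 3)
    {x : ℕ × ℕ} (hx : ¬ Small x) : (T.types Y).count x = (T.types X).count x :=
  count_bir hT h fun _ hZ hm => hx (small_of_dim hT (by omega) hm)

/-- surfaces: the law -/
theorem count_two (hT : T.Facts) {X Y : T.Var} (h : T.Bir X Y) (hX : T.dim X = 2)
    {x : ℕ × ℕ} (hx : x ≠ (1, 0)) : (T.types Y).count x = (T.types X).count x :=
  count_bir hT h fun Z hZ hm => hx (by
    rw [hT.point Z (by omega), Multiset.mem_singleton] at hm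
    exact hm)

lemma ss_iff_count {X : T.Var} :
    T.Semisimple X ↔ ∀ x, x ≠ (1, 0) → (T.types X).count x = 0 := by
  constructor
  · intro h x hx
    exact Multiset.count_eq_zero_of_notMem fun hm => hx (h x hm)
  · intro h x hx
    by_contra hne
    exact (Multiset.count_pos.2 hx).ne' (h x hne)

lemma odd_zero_of_ss (hT : T.Facts) {X : T.Var} (h : T.Semisimple X) : T.odd X = 0 := by
  rw [hT.odd_eq, Multiset.sum_eq_zero_iff]
  intro m hm
  obtain ⟨x, hx, rfl⟩ := Multiset.mem_map.1 hm
  rw [h x hx]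

lemma snd_zero_of_odd (hT : T.Facts) {X : T.Var} (h : T.odd X = 0) {x : ℕ × ℕ}
    (hx : x ∈ T.types X) : x.2 = 0 := by
  rw [hT.odd_eq, Multiset.sum_eq_zero_iff] at h
  exact h _ (Multiset.mem_map_of_mem _ hx)

/-- a threefold birational to a semisimple one -/
theorem small_types (hT : T.Facts) {X Y : T.Var} (h : T.Bir X Y) (hX : T.dim X = 3)
    (hY : T.Semisimple Y) {x : ℕ × ℕ} (hx : x ∈ T.types X) : Small x := by
  by_contra hs
  have h1 := count_three hT h hX hs
  rw [ss_iff_count.1 hY x (fun e => hs (Or.inl e))] at h1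
  exact (Multiset.count_pos.2 hx).ne h1

/-- for a threefold birational to a semisimple one -/
theorem ss_iff_odd (hT : T.Facts) {X Y : T.Var} (h : T.Bir X Y) (hX : T.dim X = 3)
    (hY : T.Semisimple Y) : T.Semisimple X ↔ T.odd X = 0 := by
  refine ⟨odd_zero_of_ss hT, fun h0 x hx => ?_⟩
  rcases small_types hT h hX hY hx with rfl | ⟨g, hg, rfl⟩
  · rfl
  · have := snd_zero_of_odd hT h0 hx
    simp only at this
    omega

/-- a rational surface is semisimple -/
lemma rational_surface (hT : T.Facts) {S : T.Var} (hS : T.dim S = 2) (h : T.Rational S) :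
    T.Semisimple S := by
  rw [ss_iff_count]
  intro x hx
  rw [← count_two hT h hS hx]
  exact ss_iff_count.1 (hT.proj _) x hx

/-- **Ruled threefolds.** -/
theorem ruled (hT : T.Facts) {X S : T.Var} (hS : T.dim S = 2)
    (h : T.Bir X (T.prod S (T.P 1))) : T.Semisimple X ↔ T.Rational S ∧ T.odd X = 0 := by
  have hX : T.dim X = 3 := by rw [hT.bir_dim h, hT.dim_times, hS]
  constructor
  · intro hss
    have h0 := odd_zero_of_ss hT hss
    refine ⟨?_, h0⟩
    have hb : T.betti S 1 = 0 := by
      have := hT.b1_le X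
      rw [h0, hT.b1_bir h, hT.b1_times] at this
      omega
    rcases hT.surface S hS with hr | ⟨C, hC, hC1, hC2⟩ | ⟨S₀, h1, h2⟩
    · exact hr
    · exfalso
      rw [hT.b1_bir hC2, hT.b1_times, hT.b1_curve C hC] at hb
      exact hC1 hb
    · exfalso
      have hS₀ : T.dim S₀ = 2 := by rw [← hT.bir_dim h1, hS]
      obtain ⟨hb2, ht⟩ := hT.nef S₀ hS₀ h2
      set x : ℕ × ℕ := (2 + T.betti S₀ 2, 2 * T.betti S₀ 1) with hx
      have hns : ¬ Small x := by
        rintro (e | ⟨g, -, e⟩)
        · have := congrArg Prod.fst e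
          simp only [hx] at this
          omega
        · have := congrArg Prod.fst e
          simp only [hx] at this
          omega
      have c1 : (T.types S).count x = 1 := by
        rw [← count_two hT h1 hS (fun e => hns (Or.inl e)), ht, Multiset.count_singleton_self]
      have c2 : (T.types X).count x = 2 := by
        rw [← count_three hT h hX hns, hT.times, Multiset.count_nsmul, c1]
      rw [ss_iff_count.1 hss x (fun e => hns (Or.inl e))] at c2
      omega
  · rintro ⟨hr, h0⟩
    refine (ss_iff_odd hT h hX ?_).2 h0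
    intro x hx
    rw [hT.times] at hx
    exact rational_surface hT hS hr x (Multiset.mem_of_mem_nsmul hx)

/-- **Rational threefolds.** -/
theorem rational_three (hT : T.Facts) {X : T.Var} (hX : T.dim X = 3) (h : T.Rational X) :
    (∀ x ∈ T.types X, Small x) ∧ (T.Semisimple X ↔ T.odd X = 0) :=
  ⟨fun _ hx => small_types hT h hX (hT.proj _) hx, ss_iff_odd hT h hX (hT.proj _)⟩

/-- **Ruled threefolds with a full exceptional collection.** -/
theorem ruled_fec (hT : T.Facts) {X S : T.Var} (hS : T.dim S = 2)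
    (h : T.Bir X (T.prod S (T.P 1))) (hf : T.FEC X) :
    T.Semisimple X ∨ ¬ T.Rational S ∧ T.pg S = 0 ∧ T.betti S 1 = 0 := by
  by_cases hr : T.Rational S
  · exact Or.inl ((ruled hT hS h).2 ⟨hr, hT.fec_odd X hf⟩)
  · refine Or.inr ⟨hr, hT.fec_forms X S hf h hS, ?_⟩
    have := hT.b1_le X
    rw [hT.fec_odd X hf, hT.b1_bir h, hT.b1_times] at this
    omega

/-- blow-ups of Fano threefolds -/
theorem above (hT : T.Facts) {X Y : T.Var} (hY : T.dim Y = 3) (hF : T.Fano Y)
    (h : T.Above Y X) : T.dim X = 3 ∧ (T.odd X = 0 → T.Rational X ∧ T.FEC X) := by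
  induction h with
  | refl => exact ⟨hY, hT.fano3 Y hF hY⟩
  | @tail A B _ hs ih =>
    obtain ⟨Z, r, hs⟩ := hs
    obtain ⟨h1, h2, h3, h4⟩ := hT.blow_dim hs
    have hB : T.dim B = 3 := h3.trans ih.1
    have hA : T.dim A = 3 := ih.1
    refine ⟨hB, fun h0 => ?_⟩
    have hsum : T.odd B = T.odd A + (r - 1) * T.odd Z := by
      rw [hT.odd_eq B, hT.odd_eq A, hT.odd_eq Z, hT.blow hs, Multiset.map_add, Multiset.sum_add,
        Multiset.map_nsmul, Multiset.sum_nsmul, smul_eq_mul]
    have hA0 : T.odd A = 0 := by omega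
    have hZ0 : T.odd Z = 0 := by
      have : (r - 1) * T.odd Z = 0 := by omega
      rcases Nat.mul_eq_zero.1 this with h | h
      · omega
      · exact h
    obtain ⟨a, b⟩ := ih.2 hA0
    refine ⟨?_, hT.fec_blow hs b ?_⟩
    · have := hT.bir_trans h4 a
      unfold Rational
      rw [hB]
      rw [hA] at this
      exact this
    · rcases Nat.le_one_iff_eq_zero_or_eq_one.1 (show T.dim Z ≤ 1 by omega) with h | h
      · exact hT.fec_point Z h
      · exact hT.fec_curve Z h hZ0

/-- **Dubrovin's conjecture for Fano threefolds and their blow-ups.** -/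
theorem fano_three (hT : T.Facts) {X Y : T.Var} (hY : T.dim Y = 3) (hF : T.Fano Y)
    (h : T.Above Y X) : (T.Semisimple X ↔ T.FEC X) ∧ (T.Semisimple X ↔ T.odd X = 0) := by
  obtain ⟨hX, hk⟩ := above hT hY hF h
  have h1 : T.odd X = 0 → T.Semisimple X := fun h0 =>
    (rational_three hT hX (hk h0).1).2.2 h0
  exact ⟨⟨fun h => (hk (odd_zero_of_ss hT h)).2, fun h => h1 (hT.fec_odd X h)⟩,
    ⟨odd_zero_of_ss hT, h1⟩⟩

/-- **Fano fourfolds with large second Betti number.** -/
theorem fano_four (hT : T.Facts) {X : T.Var} (hX : T.dim X = 4) (hF : T.Fano X)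
    (h : 12 < T.betti X 2) : T.Semisimple X ∧ T.FEC X := by
  obtain ⟨S, S', rfl, h1, h2, h3, h4⟩ := hT.fano4 X hF hX h
  exact ⟨hT.prod_ss _ _ (rational_surface hT h1 h3) (rational_surface hT h2 h4),
    hT.prod_fec _ _ (hT.fec_surface S h1 h3) (hT.fec_surface S' h2 h4)⟩

end QHData

end Pool.Agent.Q200.DB
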